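import Mathlib.Algebra.Algebra.Basic
import Mathlib.Algebra.Algebra.Defs
import Mathlib.Algebra.Algebra.Equiv
import Mathlib.Algebra.Algebra.Hom
import Mathlib.Algebra.Algebra.NonUnitalHom
import Mathlib.Algebra.Algebra.Rat
import Mathlib.Algebra.Algebra.StrictPositivity
import Mathlib.Algebra.BigOperators.Field
import Mathlib.Algebra.BigOperators.Fin
import Mathlib.Algebra.BigOperators.Finsupp.Basic
import Mathlib.Algebra.BigOperators.Group.Finset.Basic
import Mathlib.Algebra.BigOperators.Group.Finset.Defs
import Mathlib.Algebra.BigOperators.Group.Finset.Piecewise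
import Mathlib.Algebra.BigOperators.Group.Finset.Sigma
import Mathlib.Algebra.BigOperators.Group.List.Basic
import Mathlib.Algebra.BigOperators.GroupWithZero.Action
import Mathlib.Algebra.BigOperators.GroupWithZero.Finset
import Mathlib.Algebra.BigOperators.Intervals
import Mathlib.Algebra.BigOperators.ModEq
import Mathlib.Algebra.BigOperators.Pi
import Mathlib.Algebra.BigOperators.Ring.Finset
import Mathlib.Algebra.CharP.Defs
import Mathlib.Algebra.CharZero.Defs
import Mathlib.Algebra.Divisibility.Basic
import Mathlib.Algebra.EuclideanDomain.Basic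
import Mathlib.Algebra.EuclideanDomain.Defs
import Mathlib.Algebra.EuclideanDomain.Field
import Mathlib.Algebra.EuclideanDomain.Int
import Mathlib.Algebra.Field.Basic
import Mathlib.Algebra.Field.Defs
import Mathlib.Algebra.Field.Rat
import Mathlib.Algebra.Group.Action.Defs
import Mathlib.Algebra.Group.Action.Pi
import Mathlib.Algebra.Group.Action.Pointwise.Set.Basic
import Mathlib.Algebra.Group.Action.Prod
import Mathlib.Algebra.Group.Basic
import Mathlib.Algebra.Group.Defs
import Mathlib.Algebra.Group.End
import Mathlib.Algebra.Group.Even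
import Mathlib.Algebra.Group.Fin.Tuple
import Mathlib.Algebra.Group.Finsupp
import Mathlib.Algebra.Group.Hom.Basic
import Mathlib.Algebra.Group.Hom.Defs
import Mathlib.Algebra.Group.Int.Defs
import Mathlib.Algebra.Group.Int.Units
import Mathlib.Algebra.Group.Nat.Defs
import Mathlib.Algebra.Group.Nat.Even
import Mathlib.Algebra.Group.Pi.Basic
import Mathlib.Algebra.Group.Pi.Lemmas
import Mathlib.Algebra.Group.Pointwise.Set.Basic
import Mathlib.Algebra.Group.Pointwise.Set.Scalar
import Mathlib.Algebra.Group.Prod
import Mathlib.Algebra.Group.Subgroup.Defs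
import Mathlib.Algebra.Group.Subgroup.Lattice
import Mathlib.Algebra.Group.Submonoid.Defs
import Mathlib.Algebra.Group.Subsemigroup.Defs
import Mathlib.Algebra.Group.Units.Basic
import Mathlib.Algebra.Group.Units.Defs
import Mathlib.Algebra.GroupWithZero.Action.Defs
import Mathlib.Algebra.GroupWithZero.Action.Pi
import Mathlib.Algebra.GroupWithZero.Action.Pointwise.Set
import Mathlib.Algebra.GroupWithZero.Action.Prod
import Mathlib.Algebra.GroupWithZero.Action.Units
import Mathlib.Algebra.GroupWithZero.Basic
import Mathlib.Algebra.GroupWithZero.Defs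
import Mathlib.Algebra.GroupWithZero.Hom
import Mathlib.Algebra.GroupWithZero.Indicator
import Mathlib.Algebra.GroupWithZero.Nat
import Mathlib.Algebra.GroupWithZero.NeZero
import Mathlib.Algebra.GroupWithZero.Units.Basic
import Mathlib.Algebra.GroupWithZero.Units.Lemmas
import Mathlib.Algebra.Module.Defs
import Mathlib.Algebra.Module.Equiv.Basic
import Mathlib.Algebra.Module.Equiv.Defs
import Mathlib.Algebra.Module.LinearMap.Defs
import Mathlib.Algebra.Module.LinearMap.End
import Mathlib.Algebra.Module.NatInt
import Mathlib.Algebra.Module.Pi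
import Mathlib.Algebra.Module.Prod
import Mathlib.Algebra.Module.Rat
import Mathlib.Algebra.Module.Submodule.Defs
import Mathlib.Algebra.Module.Submodule.Ker
import Mathlib.Algebra.Module.Submodule.Lattice
import Mathlib.Algebra.Module.Submodule.Map
import Mathlib.Algebra.Module.Submodule.Range
import Mathlib.Algebra.Module.Torsion.Free
import Mathlib.Algebra.Module.Torsion.Pi
import Mathlib.Algebra.MonoidAlgebra.Basic
import Mathlib.Algebra.MonoidAlgebra.Defs
import Mathlib.Algebra.MonoidAlgebra.Module
import Mathlib.Algebra.MvPolynomial.Basic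
import Mathlib.Algebra.MvPolynomial.CommRing
import Mathlib.Algebra.MvPolynomial.Degrees
import Mathlib.Algebra.MvPolynomial.Eval
import Mathlib.Algebra.MvPolynomial.Monad
import Mathlib.Algebra.NeZero
import Mathlib.Algebra.Notation.Defs
import Mathlib.Algebra.Notation.Indicator
import Mathlib.Algebra.Notation.Pi.Basic
import Mathlib.Algebra.Notation.Pi.Defs
import Mathlib.Algebra.Notation.Prod
import Mathlib.Algebra.Notation.Support
import Mathlib.Algebra.Order.AddGroupWithTop
import Mathlib.Algebra.Order.Archimedean.Basic
import Mathlib.Algebra.Order.Archimedean.Defs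
import Mathlib.Algebra.Order.Archimedean.Real.Basic
import Mathlib.Algebra.Order.Archimedean.Real.Hom
import Mathlib.Algebra.Order.BigOperators.Group.Finset
import Mathlib.Algebra.Order.BigOperators.GroupWithZero.Finset
import Mathlib.Algebra.Order.BigOperators.Ring.Finset
import Mathlib.Algebra.Order.Field.Basic
import Mathlib.Algebra.Order.Floor.Defs
import Mathlib.Algebra.Order.Floor.Semiring
import Mathlib.Algebra.Order.Group.Abs
import Mathlib.Algebra.Order.Group.Defs
import Mathlib.Algebra.Order.Group.Indicator
import Mathlib.Algebra.Order.Group.Int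
import Mathlib.Algebra.Order.Group.Nat
import Mathlib.Algebra.Order.Group.OrderIso
import Mathlib.Algebra.Order.Group.Pointwise.Interval
import Mathlib.Algebra.Order.Group.Unbundled.Abs
import Mathlib.Algebra.Order.Group.Unbundled.Basic
import Mathlib.Algebra.Order.Group.Unbundled.Int
import Mathlib.Algebra.Order.GroupWithZero.Basic
import Mathlib.Algebra.Order.GroupWithZero.Canonical
import Mathlib.Algebra.Order.GroupWithZero.Defs
import Mathlib.Algebra.Order.IsBotOne
import Mathlib.Algebra.Order.Module.Defs
import Mathlib.Algebra.Order.Monoid.Canonical.Defs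
import Mathlib.Algebra.Order.Monoid.Defs
import Mathlib.Algebra.Order.Monoid.NatCast
import Mathlib.Algebra.Order.Monoid.Unbundled.Basic
import Mathlib.Algebra.Order.Monoid.Unbundled.Defs
import Mathlib.Algebra.Order.Monoid.Unbundled.ExistsOfLE
import Mathlib.Algebra.Order.Monoid.Unbundled.WithTop
import Mathlib.Algebra.Order.Ring.Abs
import Mathlib.Algebra.Order.Ring.Basic
import Mathlib.Algebra.Order.Ring.Canonical
import Mathlib.Algebra.Order.Ring.Cast
import Mathlib.Algebra.Order.Ring.Defs
import Mathlib.Algebra.Order.Ring.Int
import Mathlib.Algebra.Order.Ring.Nat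
import Mathlib.Algebra.Order.Ring.Pow
import Mathlib.Algebra.Order.Ring.Rat
import Mathlib.Algebra.Order.Ring.Star
import Mathlib.Algebra.Order.Ring.Unbundled.Basic
import Mathlib.Algebra.Order.Ring.Unbundled.Rat
import Mathlib.Algebra.Order.Ring.WithTop
import Mathlib.Algebra.Order.Star.Basic
import Mathlib.Algebra.Order.Star.Real
import Mathlib.Algebra.Order.Sub.Basic
import Mathlib.Algebra.Order.Sub.Defs
import Mathlib.Algebra.Order.SuccPred
import Mathlib.Algebra.Order.ZeroLEOne
import Mathlib.Algebra.Polynomial.Basic
import Mathlib.Algebra.Polynomial.Coeff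
import Mathlib.Algebra.Polynomial.Eval.Defs
import Mathlib.Algebra.QuadraticDiscriminant
import Mathlib.Algebra.Ring.Basic
import Mathlib.Algebra.Ring.CharZero
import Mathlib.Algebra.Ring.Commute
import Mathlib.Algebra.Ring.CompTypeclasses
import Mathlib.Algebra.Ring.Defs
import Mathlib.Algebra.Ring.GeomSum
import Mathlib.Algebra.Ring.Hom.Defs
import Mathlib.Algebra.Ring.Int.Defs
import Mathlib.Algebra.Ring.IsFormallyReal
import Mathlib.Algebra.Ring.Nat
import Mathlib.Algebra.Ring.Parity
import Mathlib.Algebra.Ring.Periodic
import Mathlib.Algebra.Ring.Pi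
import Mathlib.Algebra.Ring.Rat
import Mathlib.Algebra.Ring.Units
import Mathlib.Algebra.Star.Basic
import Mathlib.Algebra.Star.Pi
import Mathlib.Algebra.Star.Rat
import Mathlib.Algebra.Star.SelfAdjoint
import Mathlib.Algebra.Star.StarAlgHom
import Mathlib.Algebra.Star.Unitary
import Mathlib.Algebra.Star.UnitaryStarAlgAut
import Mathlib.Algebra.Torsor.Defs
import Mathlib.Analysis.Analytic.Basic
import Mathlib.Analysis.Analytic.IsolatedZeros
import Mathlib.Analysis.Asymptotics.Defs
import Mathlib.Analysis.Asymptotics.Lemmas
import Mathlib.Analysis.CStarAlgebra.Classes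
import Mathlib.Analysis.CStarAlgebra.ContinuousFunctionalCalculus.NonUnital
import Mathlib.Analysis.Calculus.ContDiff.Basic
import Mathlib.Analysis.Calculus.ContDiff.Comp
import Mathlib.Analysis.Calculus.ContDiff.Defs
import Mathlib.Analysis.Calculus.ContDiff.Deriv
import Mathlib.Analysis.Calculus.ContDiff.Operations
import Mathlib.Analysis.Calculus.ContDiff.Polynomial
import Mathlib.Analysis.Calculus.DSlope
import Mathlib.Analysis.Calculus.Deriv.Abs
import Mathlib.Analysis.Calculus.Deriv.Add
import Mathlib.Analysis.Calculus.Deriv.Basic
import Mathlib.Analysis.Calculus.Deriv.Comp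
import Mathlib.Analysis.Calculus.Deriv.Inv
import Mathlib.Analysis.Calculus.Deriv.MeanValue
import Mathlib.Analysis.Calculus.Deriv.Mul
import Mathlib.Analysis.Calculus.Deriv.Pow
import Mathlib.Analysis.Calculus.Deriv.Prod
import Mathlib.Analysis.Calculus.Deriv.Shift
import Mathlib.Analysis.Calculus.Deriv.Slope
import Mathlib.Analysis.Calculus.FDeriv.Add
import Mathlib.Analysis.Calculus.FDeriv.Analytic
import Mathlib.Analysis.Calculus.FDeriv.Basic
import Mathlib.Analysis.Calculus.FDeriv.Comp
import Mathlib.Analysis.Calculus.FDeriv.CompCLM
import Mathlib.Analysis.Calculus.FDeriv.Congr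
import Mathlib.Analysis.Calculus.FDeriv.Const
import Mathlib.Analysis.Calculus.FDeriv.Defs
import Mathlib.Analysis.Calculus.FDeriv.Linear
import Mathlib.Analysis.Calculus.FDeriv.Measurable
import Mathlib.Analysis.Calculus.FDeriv.Mul
import Mathlib.Analysis.Calculus.FDeriv.Pow
import Mathlib.Analysis.Calculus.FDeriv.Prod
import Mathlib.Analysis.Calculus.FDeriv.Symmetric
import Mathlib.Analysis.Calculus.FormalMultilinearSeries
import Mathlib.Analysis.Calculus.LineDeriv.Basic
import Mathlib.Analysis.Calculus.LocalExtr.Basic
import Mathlib.Analysis.Calculus.MeanValue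
import Mathlib.Analysis.Calculus.ParametricIntegral
import Mathlib.Analysis.Calculus.Rademacher
import Mathlib.Analysis.Calculus.TangentCone.Real
import Mathlib.Analysis.Complex.Exponential
import Mathlib.Analysis.Complex.ExponentialBounds
import Mathlib.Analysis.Complex.Norm
import Mathlib.Analysis.Complex.Polynomial.Basic
import Mathlib.Analysis.Complex.Trigonometric
import Mathlib.Analysis.Convex.Basic
import Mathlib.Analysis.Convex.Caratheodory
import Mathlib.Analysis.Convex.Combination
import Mathlib.Analysis.Convex.Continuous
import Mathlib.Analysis.Convex.Deriv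
import Mathlib.Analysis.Convex.Extreme
import Mathlib.Analysis.Convex.Function
import Mathlib.Analysis.Convex.Gauge
import Mathlib.Analysis.Convex.Hull
import Mathlib.Analysis.Convex.Jensen
import Mathlib.Analysis.Convex.Measure
import Mathlib.Analysis.Convex.Mul
import Mathlib.Analysis.Convex.PathConnected
import Mathlib.Analysis.Convex.Segment
import Mathlib.Analysis.Convex.Slope
import Mathlib.Analysis.Convex.SpecificFunctions.Basic
import Mathlib.Analysis.Convex.SpecificFunctions.Deriv
import Mathlib.Analysis.Convex.Star
import Mathlib.Analysis.Convex.StdSimplex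
import Mathlib.Analysis.Convex.Topology
import Mathlib.Analysis.InnerProductSpace.Basic
import Mathlib.Analysis.InnerProductSpace.Defs
import Mathlib.Analysis.InnerProductSpace.NormDet
import Mathlib.Analysis.InnerProductSpace.Orthonormal
import Mathlib.Analysis.InnerProductSpace.PiL2
import Mathlib.Analysis.LocallyConvex.Basic
import Mathlib.Analysis.LocallyConvex.Bounded
import Mathlib.Analysis.LocallyConvex.Separation
import Mathlib.Analysis.LocallyConvex.WithSeminorms
import Mathlib.Analysis.Matrix.HermitianFunctionalCalculus
import Mathlib.Analysis.Matrix.Order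
import Mathlib.Analysis.Matrix.PosDef
import Mathlib.Analysis.Matrix.Spectrum
import Mathlib.Analysis.MeanInequalities
import Mathlib.Analysis.Normed.Field.Basic
import Mathlib.Analysis.Normed.Field.Lemmas
import Mathlib.Analysis.Normed.Group.AddTorsor
import Mathlib.Analysis.Normed.Group.Basic
import Mathlib.Analysis.Normed.Group.Bounded
import Mathlib.Analysis.Normed.Group.Constructions
import Mathlib.Analysis.Normed.Group.Continuity
import Mathlib.Analysis.Normed.Group.Defs
import Mathlib.Analysis.Normed.Group.Indicator
import Mathlib.Analysis.Normed.Group.Pointwise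
import Mathlib.Analysis.Normed.Group.Real
import Mathlib.Analysis.Normed.Group.Uniform
import Mathlib.Analysis.Normed.Lp.MeasurableSpace
import Mathlib.Analysis.Normed.Lp.PiLp
import Mathlib.Analysis.Normed.Lp.WithLp
import Mathlib.Analysis.Normed.Module.Ball.Pointwise
import Mathlib.Analysis.Normed.Module.Basic
import Mathlib.Analysis.Normed.Module.Convex
import Mathlib.Analysis.Normed.Module.RCLike.Real
import Mathlib.Analysis.Normed.MulAction
import Mathlib.Analysis.Normed.Operator.Basic
import Mathlib.Analysis.Normed.Operator.Bilinear
import Mathlib.Analysis.Normed.Operator.BoundedLinearMaps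
import Mathlib.Analysis.Normed.Operator.NormedSpace
import Mathlib.Analysis.Normed.Order.Lattice
import Mathlib.Analysis.Normed.Ring.Basic
import Mathlib.Analysis.Normed.Ring.Lemmas
import Mathlib.Analysis.RCLike.Basic
import Mathlib.Analysis.RCLike.Lemmas
import Mathlib.Analysis.Real.Pi.Bounds
import Mathlib.Analysis.Real.Sqrt
import Mathlib.Analysis.SpecialFunctions.Complex.Arg
import Mathlib.Analysis.SpecialFunctions.Complex.LogBounds
import Mathlib.Analysis.SpecialFunctions.ContinuousFunctionalCalculus.Rpow.Basic
import Mathlib.Analysis.SpecialFunctions.Exp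
import Mathlib.Analysis.SpecialFunctions.ExpDeriv
import Mathlib.Analysis.SpecialFunctions.Gamma.Basic
import Mathlib.Analysis.SpecialFunctions.Gamma.BohrMollerup
import Mathlib.Analysis.SpecialFunctions.Gaussian.GaussianIntegral
import Mathlib.Analysis.SpecialFunctions.ImproperIntegrals
import Mathlib.Analysis.SpecialFunctions.Integrability.Basic
import Mathlib.Analysis.SpecialFunctions.Integrals.Basic
import Mathlib.Analysis.SpecialFunctions.Log.Basic
import Mathlib.Analysis.SpecialFunctions.Log.Deriv
import Mathlib.Analysis.SpecialFunctions.PolarCoord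
import Mathlib.Analysis.SpecialFunctions.Pow.Asymptotics
import Mathlib.Analysis.SpecialFunctions.Pow.Continuity
import Mathlib.Analysis.SpecialFunctions.Pow.Deriv
import Mathlib.Analysis.SpecialFunctions.Pow.NNReal
import Mathlib.Analysis.SpecialFunctions.Pow.Real
import Mathlib.Analysis.SpecialFunctions.SmoothTransition
import Mathlib.Analysis.SpecialFunctions.Sqrt
import Mathlib.Analysis.SpecialFunctions.Trigonometric.Arctan
import Mathlib.Analysis.SpecialFunctions.Trigonometric.ArctanDeriv
import Mathlib.Analysis.SpecialFunctions.Trigonometric.Basic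
import Mathlib.Analysis.SpecialFunctions.Trigonometric.Bounds
import Mathlib.Analysis.SpecialFunctions.Trigonometric.Deriv
import Mathlib.Analysis.SpecialFunctions.Trigonometric.DerivHyp
import Mathlib.Analysis.SpecialFunctions.Trigonometric.Inverse
import Mathlib.Analysis.SpecialFunctions.Trigonometric.Series
import Mathlib.Analysis.SpecificLimits.Basic
import Mathlib.Combinatorics.SimpleGraph.Basic
import Mathlib.Combinatorics.SimpleGraph.Clique
import Mathlib.Data.Bool.Basic
import Mathlib.Data.Complex.Basic
import Mathlib.Data.Countable.Basic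
import Mathlib.Data.Countable.Defs
import Mathlib.Data.ENNReal.Basic
import Mathlib.Data.ENNReal.BigOperators
import Mathlib.Data.ENNReal.Inv
import Mathlib.Data.ENNReal.Operations
import Mathlib.Data.ENNReal.Real
import Mathlib.Data.ENat.Basic
import Mathlib.Data.ENat.Defs
import Mathlib.Data.ENat.Lattice
import Mathlib.Data.Fin.Basic
import Mathlib.Data.Fin.SuccPred
import Mathlib.Data.Fin.Tuple.Basic
import Mathlib.Data.Fin.Tuple.Sort
import Mathlib.Data.Fin.VecNotation
import Mathlib.Data.Finite.Defs
import Mathlib.Data.Finite.Prod
import Mathlib.Data.Finset.BooleanAlgebra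
import Mathlib.Data.Finset.Card
import Mathlib.Data.Finset.Defs
import Mathlib.Data.Finset.Disjoint
import Mathlib.Data.Finset.Empty
import Mathlib.Data.Finset.Erase
import Mathlib.Data.Finset.Filter
import Mathlib.Data.Finset.Image
import Mathlib.Data.Finset.Insert
import Mathlib.Data.Finset.Lattice.Basic
import Mathlib.Data.Finset.Lattice.Fold
import Mathlib.Data.Finset.Max
import Mathlib.Data.Finset.Range
import Mathlib.Data.Finset.SDiff
import Mathlib.Data.Finset.Sigma
import Mathlib.Data.Finset.Sort
import Mathlib.Data.Finsupp.Defs
import Mathlib.Data.Finsupp.Single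
import Mathlib.Data.Finsupp.Weight
import Mathlib.Data.Fintype.Basic
import Mathlib.Data.Fintype.BigOperators
import Mathlib.Data.Fintype.Card
import Mathlib.Data.Fintype.Defs
import Mathlib.Data.Fintype.EquivFin
import Mathlib.Data.Fintype.Lattice
import Mathlib.Data.Fintype.Option
import Mathlib.Data.Fintype.Order
import Mathlib.Data.Fintype.Perm
import Mathlib.Data.Fintype.Pi
import Mathlib.Data.Fintype.Powerset
import Mathlib.Data.Fintype.Prod
import Mathlib.Data.Fintype.Sets
import Mathlib.Data.Fintype.Sum
import Mathlib.Data.FunLike.Basic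
import Mathlib.Data.FunLike.Equiv
import Mathlib.Data.FunLike.IsApply
import Mathlib.Data.Int.Basic
import Mathlib.Data.Int.Cast.Basic
import Mathlib.Data.Int.Cast.Defs
import Mathlib.Data.Int.Cast.Lemmas
import Mathlib.Data.Int.ConditionallyCompleteOrder
import Mathlib.Data.Int.Init
import Mathlib.Data.Int.ModEq
import Mathlib.Data.Int.Order.Basic
import Mathlib.Data.Int.Star
import Mathlib.Data.List.Basic
import Mathlib.Data.List.Forall2
import Mathlib.Data.List.GetD
import Mathlib.Data.List.InsertIdx
import Mathlib.Data.List.Monad
import Mathlib.Data.Matrix.Basic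
import Mathlib.Data.Matrix.Diagonal
import Mathlib.Data.Matrix.Mul
import Mathlib.Data.NNRat.Defs
import Mathlib.Data.NNReal.Defs
import Mathlib.Data.Nat.Basic
import Mathlib.Data.Nat.Bitwise
import Mathlib.Data.Nat.Cast.Basic
import Mathlib.Data.Nat.Cast.Defs
import Mathlib.Data.Nat.Cast.Field
import Mathlib.Data.Nat.Cast.Order.Basic
import Mathlib.Data.Nat.Cast.Order.Field
import Mathlib.Data.Nat.Cast.Order.Ring
import Mathlib.Data.Nat.Choose.Basic
import Mathlib.Data.Nat.Choose.Bounds
import Mathlib.Data.Nat.Choose.Sum
import Mathlib.Data.Nat.Factorial.Basic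
import Mathlib.Data.Nat.Fib.Zeckendorf
import Mathlib.Data.Nat.Find
import Mathlib.Data.Nat.Init
import Mathlib.Data.Nat.ModEq
import Mathlib.Data.Nat.SuccPred
import Mathlib.Data.Prod.Basic
import Mathlib.Data.Rat.BigOperators
import Mathlib.Data.Rat.Cast.CharZero
import Mathlib.Data.Rat.Cast.Defs
import Mathlib.Data.Rat.Cast.Lemmas
import Mathlib.Data.Rat.Cast.Order
import Mathlib.Data.Rat.Defs
import Mathlib.Data.Rat.Init
import Mathlib.Data.Rat.Star
import Mathlib.Data.Real.Basic
import Mathlib.Data.Real.ConjExponents
import Mathlib.Data.Real.Pointwise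
import Mathlib.Data.Real.Star
import Mathlib.Data.SProd
import Mathlib.Data.Set.Basic
import Mathlib.Data.Set.BooleanAlgebra
import Mathlib.Data.Set.Card
import Mathlib.Data.Set.CoeSort
import Mathlib.Data.Set.Countable
import Mathlib.Data.Set.Defs
import Mathlib.Data.Set.Disjoint
import Mathlib.Data.Set.Finite.Basic
import Mathlib.Data.Set.Finite.Lattice
import Mathlib.Data.Set.Finite.Lemmas
import Mathlib.Data.Set.Finite.Range
import Mathlib.Data.Set.Function
import Mathlib.Data.Set.Image
import Mathlib.Data.Set.Insert
import Mathlib.Data.Set.Lattice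
import Mathlib.Data.Set.Monotone
import Mathlib.Data.Set.Operations
import Mathlib.Data.Set.Pairwise.Basic
import Mathlib.Data.Set.Prod
import Mathlib.Data.Set.Restrict
import Mathlib.Data.Set.Subsingleton
import Mathlib.Data.SetLike.Basic
import Mathlib.Data.Sign.Basic
import Mathlib.Data.Sign.Defs
import Mathlib.Data.Sum.Basic
import Mathlib.Data.ZMod.Defs
import Mathlib.Dynamics.Ergodic.Action.Basic
import Mathlib.Dynamics.Ergodic.Action.Regular
import Mathlib.Dynamics.Ergodic.MeasurePreserving
import Mathlib.FieldTheory.IsAlgClosed.Basic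
import Mathlib.Geometry.Euclidean.Angle.Unoriented.Basic
import Mathlib.Geometry.Euclidean.Angle.Unoriented.TriangleInequality
import Mathlib.GroupTheory.GroupAction.Hom
import Mathlib.GroupTheory.GroupAction.Ring
import Mathlib.GroupTheory.Perm.Fin
import Mathlib.GroupTheory.Perm.Sign
import Mathlib.LinearAlgebra.AffineSpace.AffineMap
import Mathlib.LinearAlgebra.AffineSpace.AffineSubspace.Defs
import Mathlib.LinearAlgebra.AffineSpace.Combination
import Mathlib.LinearAlgebra.AffineSpace.FiniteDimensional
import Mathlib.LinearAlgebra.AffineSpace.Independent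
import Mathlib.LinearAlgebra.AffineSpace.Slope
import Mathlib.LinearAlgebra.Basis.Basic
import Mathlib.LinearAlgebra.Basis.Defs
import Mathlib.LinearAlgebra.Basis.Fin
import Mathlib.LinearAlgebra.Basis.VectorSpace
import Mathlib.LinearAlgebra.CrossProduct
import Mathlib.LinearAlgebra.DFinsupp
import Mathlib.LinearAlgebra.Determinant
import Mathlib.LinearAlgebra.Dimension.Constructions
import Mathlib.LinearAlgebra.Dimension.Finrank
import Mathlib.LinearAlgebra.Dimension.Free
import Mathlib.LinearAlgebra.Dimension.StrongRankCondition
import Mathlib.LinearAlgebra.FiniteDimensional.Basic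
import Mathlib.LinearAlgebra.FiniteDimensional.Defs
import Mathlib.LinearAlgebra.FiniteDimensional.Lemmas
import Mathlib.LinearAlgebra.Finsupp.LinearCombination
import Mathlib.LinearAlgebra.FreeModule.StrongRankCondition
import Mathlib.LinearAlgebra.LinearIndependent.Defs
import Mathlib.LinearAlgebra.LinearIndependent.Lemmas
import Mathlib.LinearAlgebra.Matrix.ConjTranspose
import Mathlib.LinearAlgebra.Matrix.Defs
import Mathlib.LinearAlgebra.Matrix.Determinant.Basic
import Mathlib.LinearAlgebra.Matrix.DotProduct
import Mathlib.LinearAlgebra.Matrix.FixedDetMatrices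
import Mathlib.LinearAlgebra.Matrix.Hermitian
import Mathlib.LinearAlgebra.Matrix.InvariantBasisNumber
import Mathlib.LinearAlgebra.Matrix.Nondegenerate
import Mathlib.LinearAlgebra.Matrix.NonsingularInverse
import Mathlib.LinearAlgebra.Matrix.Notation
import Mathlib.LinearAlgebra.Matrix.PosDef
import Mathlib.LinearAlgebra.Matrix.RowCol
import Mathlib.LinearAlgebra.Matrix.ToLin
import Mathlib.LinearAlgebra.Matrix.ToLinearEquiv
import Mathlib.LinearAlgebra.Matrix.Trace
import Mathlib.LinearAlgebra.Pi
import Mathlib.LinearAlgebra.Prod
import Mathlib.LinearAlgebra.Span.Basic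
import Mathlib.LinearAlgebra.Span.Defs
import Mathlib.LinearAlgebra.StdBasis
import Mathlib.LinearAlgebra.UnitaryGroup
import Mathlib.Logic.Basic
import Mathlib.Logic.Embedding.Basic
import Mathlib.Logic.Equiv.Basic
import Mathlib.Logic.Equiv.Bool
import Mathlib.Logic.Equiv.Defs
import Mathlib.Logic.Equiv.Fin.Basic
import Mathlib.Logic.Equiv.PartialEquiv
import Mathlib.Logic.Equiv.Prod
import Mathlib.Logic.Equiv.Set
import Mathlib.Logic.Equiv.Sum
import Mathlib.Logic.Function.Basic
import Mathlib.Logic.Function.CompTypeclasses
import Mathlib.Logic.Function.Defs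
import Mathlib.Logic.IsEmpty.Basic
import Mathlib.Logic.IsEmpty.Defs
import Mathlib.Logic.Nonempty
import Mathlib.Logic.Nontrivial.Basic
import Mathlib.Logic.Nontrivial.Defs
import Mathlib.Logic.Pairwise
import Mathlib.Logic.Relation
import Mathlib.Logic.Unique
import Mathlib.MeasureTheory.Constructions.BorelSpace.Basic
import Mathlib.MeasureTheory.Constructions.BorelSpace.ContinuousLinearMap
import Mathlib.MeasureTheory.Constructions.BorelSpace.Order
import Mathlib.MeasureTheory.Constructions.BorelSpace.Real
import Mathlib.MeasureTheory.Constructions.Pi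
import Mathlib.MeasureTheory.Constructions.Polish.Basic
import Mathlib.MeasureTheory.Function.Jacobian
import Mathlib.MeasureTheory.Function.L1Space.HasFiniteIntegral
import Mathlib.MeasureTheory.Function.L1Space.Integrable
import Mathlib.MeasureTheory.Function.LocallyIntegrable
import Mathlib.MeasureTheory.Function.SpecialFunctions.Basic
import Mathlib.MeasureTheory.Function.StronglyMeasurable.AEStronglyMeasurable
import Mathlib.MeasureTheory.Function.StronglyMeasurable.Basic
import Mathlib.MeasureTheory.Group.Action
import Mathlib.MeasureTheory.Group.Arithmetic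
import Mathlib.MeasureTheory.Group.Integral
import Mathlib.MeasureTheory.Group.MeasurableEquiv
import Mathlib.MeasureTheory.Group.Measure
import Mathlib.MeasureTheory.Group.Pointwise
import Mathlib.MeasureTheory.Integral.Bochner.Basic
import Mathlib.MeasureTheory.Integral.Bochner.ContinuousLinearMap
import Mathlib.MeasureTheory.Integral.Bochner.Set
import Mathlib.MeasureTheory.Integral.DominatedConvergence
import Mathlib.MeasureTheory.Integral.IntegrableOn
import Mathlib.MeasureTheory.Integral.IntegralEqImproper
import Mathlib.MeasureTheory.Integral.IntervalIntegral.Basic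
import Mathlib.MeasureTheory.Integral.IntervalIntegral.DerivIntegrable
import Mathlib.MeasureTheory.Integral.IntervalIntegral.FundThmCalculus
import Mathlib.MeasureTheory.Integral.IntervalIntegral.IntegrationByParts
import Mathlib.MeasureTheory.Integral.IntervalIntegral.Periodic
import Mathlib.MeasureTheory.Integral.Layercake
import Mathlib.MeasureTheory.Integral.Lebesgue.Add
import Mathlib.MeasureTheory.Integral.Lebesgue.Basic
import Mathlib.MeasureTheory.Integral.Lebesgue.Map
import Mathlib.MeasureTheory.Integral.Lebesgue.Markov
import Mathlib.MeasureTheory.Integral.MeanInequalities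
import Mathlib.MeasureTheory.Integral.Pi
import Mathlib.MeasureTheory.Integral.Prod
import Mathlib.MeasureTheory.MeasurableSpace.Basic
import Mathlib.MeasureTheory.MeasurableSpace.Constructions
import Mathlib.MeasureTheory.MeasurableSpace.Defs
import Mathlib.MeasureTheory.MeasurableSpace.Embedding
import Mathlib.MeasureTheory.MeasurableSpace.Instances
import Mathlib.MeasureTheory.Measure.AEDisjoint
import Mathlib.MeasureTheory.Measure.AbsolutelyContinuous
import Mathlib.MeasureTheory.Measure.Dirac
import Mathlib.MeasureTheory.Measure.Haar.InnerProductSpace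
import Mathlib.MeasureTheory.Measure.Haar.NormedSpace
import Mathlib.MeasureTheory.Measure.Haar.OfBasis
import Mathlib.MeasureTheory.Measure.Haar.Unique
import Mathlib.MeasureTheory.Measure.Hausdorff
import Mathlib.MeasureTheory.Measure.Lebesgue.Basic
import Mathlib.MeasureTheory.Measure.Lebesgue.EqHaar
import Mathlib.MeasureTheory.Measure.Lebesgue.Integral
import Mathlib.MeasureTheory.Measure.Lebesgue.VolumeOfBalls
import Mathlib.MeasureTheory.Measure.Map
import Mathlib.MeasureTheory.Measure.MeasureSpace
import Mathlib.MeasureTheory.Measure.MeasureSpaceDef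
import Mathlib.MeasureTheory.Measure.NullMeasurable
import Mathlib.MeasureTheory.Measure.OpenPos
import Mathlib.MeasureTheory.Measure.Prod
import Mathlib.MeasureTheory.Measure.QuasiMeasurePreserving
import Mathlib.MeasureTheory.Measure.Real
import Mathlib.MeasureTheory.Measure.Regular
import Mathlib.MeasureTheory.Measure.RegularityCompacts
import Mathlib.MeasureTheory.Measure.Restrict
import Mathlib.MeasureTheory.Measure.Typeclasses.Finite
import Mathlib.MeasureTheory.Measure.Typeclasses.NullSingletonClass
import Mathlib.MeasureTheory.Measure.Typeclasses.Probability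
import Mathlib.MeasureTheory.Measure.Typeclasses.SFinite
import Mathlib.MeasureTheory.Measure.WithDensity
import Mathlib.MeasureTheory.Order.Group.Lattice
import Mathlib.MeasureTheory.OuterMeasure.AE
import Mathlib.MeasureTheory.OuterMeasure.Basic
import Mathlib.MeasureTheory.OuterMeasure.Defs
import Mathlib.NumberTheory.SelbergSieve
import Mathlib.NumberTheory.Zsqrtd.GaussianInt
import Mathlib.Order.Basic
import Mathlib.Order.BooleanAlgebra.Basic
import Mathlib.Order.BooleanAlgebra.Defs
import Mathlib.Order.BooleanAlgebra.Set
import Mathlib.Order.BoundedOrder.Basic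
import Mathlib.Order.Bounds.Defs
import Mathlib.Order.BourbakiWitt
import Mathlib.Order.Closure
import Mathlib.Order.CompleteBooleanAlgebra
import Mathlib.Order.CompleteLattice.Basic
import Mathlib.Order.CompleteLattice.Defs
import Mathlib.Order.CompletePartialOrder
import Mathlib.Order.ConditionallyCompleteLattice.Basic
import Mathlib.Order.ConditionallyCompleteLattice.Defs
import Mathlib.Order.ConditionallyCompleteLattice.Finset
import Mathlib.Order.ConditionallyCompleteLattice.Indexed
import Mathlib.Order.ConditionallyCompletePartialOrder.Defs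
import Mathlib.Order.Defs.LinearOrder
import Mathlib.Order.Defs.PartialOrder
import Mathlib.Order.Defs.Prop
import Mathlib.Order.Defs.Unbundled
import Mathlib.Order.Disjoint
import Mathlib.Order.Filter.AtTopBot.Archimedean
import Mathlib.Order.Filter.AtTopBot.Basic
import Mathlib.Order.Filter.AtTopBot.Defs
import Mathlib.Order.Filter.AtTopBot.Field
import Mathlib.Order.Filter.AtTopBot.Group
import Mathlib.Order.Filter.AtTopBot.Tendsto
import Mathlib.Order.Filter.Bases.Basic
import Mathlib.Order.Filter.Basic
import Mathlib.Order.Filter.Defs
import Mathlib.Order.Filter.Extr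
import Mathlib.Order.Filter.Finite
import Mathlib.Order.Filter.Tendsto
import Mathlib.Order.Filter.Ultrafilter.Basic
import Mathlib.Order.Filter.Ultrafilter.Defs
import Mathlib.Order.Fin.Basic
import Mathlib.Order.Heyting.Basic
import Mathlib.Order.Hom.Basic
import Mathlib.Order.Interval.Finset.Basic
import Mathlib.Order.Interval.Finset.Defs
import Mathlib.Order.Interval.Finset.Nat
import Mathlib.Order.Interval.Set.Basic
import Mathlib.Order.Interval.Set.Defs
import Mathlib.Order.Interval.Set.Disjoint
import Mathlib.Order.Interval.Set.LinearOrder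
import Mathlib.Order.Interval.Set.OrdConnected
import Mathlib.Order.Interval.Set.ProjIcc
import Mathlib.Order.Interval.Set.UnorderedInterval
import Mathlib.Order.Lattice
import Mathlib.Order.Lattice.Nat
import Mathlib.Order.Max
import Mathlib.Order.MinMax
import Mathlib.Order.Monotone.Defs
import Mathlib.Order.Nat
import Mathlib.Order.Notation
import Mathlib.Order.Preorder.Finite
import Mathlib.Order.RelClasses
import Mathlib.Order.SetNotation
import Mathlib.Order.TypeTags
import Mathlib.Order.WellFounded
import Mathlib.Order.WithBot
import Mathlib.Probability.Moments.IntegrableExpMul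
import Mathlib.Probability.Moments.MGFAnalytic
import Mathlib.RingTheory.Etale.Weakly
import Mathlib.RingTheory.FiniteType
import Mathlib.RingTheory.Finiteness.Defs
import Mathlib.RingTheory.Finiteness.Prod
import Mathlib.RingTheory.Flat.TorsionFree
import Mathlib.RingTheory.MvPolynomial.Symmetric.FundamentalTheorem
import Mathlib.RingTheory.MvPolynomial.WeightedHomogeneous
import Mathlib.RingTheory.Noetherian.Basic
import Mathlib.RingTheory.SimpleModule.Basic
import Mathlib.RingTheory.TotallySplit
import Mathlib.Tactic
import Mathlib.Tactic.Abel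
import Mathlib.Tactic.CancelDenoms.Core
import Mathlib.Tactic.Contrapose
import Mathlib.Tactic.FieldSimp.Lemmas
import Mathlib.Tactic.IntervalCases
import Mathlib.Tactic.Lift
import Mathlib.Tactic.Linarith.Lemmas
import Mathlib.Tactic.Linarith.Preprocessing
import Mathlib.Tactic.LinearCombination.Lemmas
import Mathlib.Tactic.Module
import Mathlib.Tactic.NormNum.Abs
import Mathlib.Tactic.NormNum.Basic
import Mathlib.Tactic.NormNum.BigOperators
import Mathlib.Tactic.NormNum.Eq
import Mathlib.Tactic.NormNum.GCD
import Mathlib.Tactic.NormNum.Ineq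
import Mathlib.Tactic.NormNum.Inv
import Mathlib.Tactic.NormNum.NatFactorial
import Mathlib.Tactic.NormNum.OfScientific
import Mathlib.Tactic.NormNum.Pow
import Mathlib.Tactic.NormNum.RealSqrt
import Mathlib.Tactic.NormNum.Result
import Mathlib.Tactic.Positivity.Basic
import Mathlib.Tactic.Positivity.Core
import Mathlib.Tactic.Push
import Mathlib.Tactic.Ring.Basic
import Mathlib.Tactic.Ring.Common
import Mathlib.Tactic.Ring.Compare
import Mathlib.Tactic.Ring.RingNF
import Mathlib.Tactic.Zify
import Mathlib.Topology.Algebra.ConstMulAction
import Mathlib.Topology.Algebra.Field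
import Mathlib.Topology.Algebra.Group.Basic
import Mathlib.Topology.Algebra.Group.Defs
import Mathlib.Topology.Algebra.Group.Pointwise
import Mathlib.Topology.Algebra.GroupWithZero
import Mathlib.Topology.Algebra.InfiniteSum.Basic
import Mathlib.Topology.Algebra.InfiniteSum.Defs
import Mathlib.Topology.Algebra.InfiniteSum.SummationFilter
import Mathlib.Topology.Algebra.Module.Basic
import Mathlib.Topology.Algebra.Module.ContinuousLinearMap.Basic
import Mathlib.Topology.Algebra.Module.ContinuousLinearMap.PiProd
import Mathlib.Topology.Algebra.Module.Determinant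
import Mathlib.Topology.Algebra.Module.Equiv
import Mathlib.Topology.Algebra.Module.FiniteDimension
import Mathlib.Topology.Algebra.Module.ModuleTopology
import Mathlib.Topology.Algebra.Module.Spaces.ContinuousLinearMap
import Mathlib.Topology.Algebra.Monoid
import Mathlib.Topology.Algebra.Monoid.Defs
import Mathlib.Topology.Algebra.MulAction
import Mathlib.Topology.Algebra.Order.Field
import Mathlib.Topology.Algebra.Order.Group
import Mathlib.Topology.Algebra.Ring.Basic
import Mathlib.Topology.Algebra.Ring.Real
import Mathlib.Topology.Algebra.Star.Real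
import Mathlib.Topology.Algebra.Support
import Mathlib.Topology.Algebra.UniformMulAction
import Mathlib.Topology.Bases
import Mathlib.Topology.Basic
import Mathlib.Topology.Bornology.Absorbs
import Mathlib.Topology.Bornology.Basic
import Mathlib.Topology.Bornology.Constructions
import Mathlib.Topology.Bornology.Real
import Mathlib.Topology.Closure
import Mathlib.Topology.ClusterPt
import Mathlib.Topology.Compactification.OnePoint.ProjectiveLine
import Mathlib.Topology.Compactness.Compact
import Mathlib.Topology.Compactness.DeltaGeneratedSpace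
import Mathlib.Topology.Compactness.Lindelof
import Mathlib.Topology.Compactness.LocallyCompact
import Mathlib.Topology.Compactness.SigmaCompact
import Mathlib.Topology.Connected.Basic
import Mathlib.Topology.Constructions
import Mathlib.Topology.Constructions.SumProd
import Mathlib.Topology.Continuous
import Mathlib.Topology.ContinuousMap.Weierstrass
import Mathlib.Topology.ContinuousOn
import Mathlib.Topology.Convenient.GeneratedBy
import Mathlib.Topology.Defs.Basic
import Mathlib.Topology.Defs.Filter
import Mathlib.Topology.Defs.Induced
import Mathlib.Topology.Defs.Sequences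
import Mathlib.Topology.EMetricSpace.Defs
import Mathlib.Topology.EMetricSpace.Lipschitz
import Mathlib.Topology.EMetricSpace.Pi
import Mathlib.Topology.GDelta.MetrizableSpace
import Mathlib.Topology.Homeomorph.Defs
import Mathlib.Topology.Homeomorph.Lemmas
import Mathlib.Topology.Instances.Discrete
import Mathlib.Topology.Instances.Matrix
import Mathlib.Topology.Instances.NNReal.Lemmas
import Mathlib.Topology.Instances.Nat
import Mathlib.Topology.Instances.Rat
import Mathlib.Topology.LocallyFinite
import Mathlib.Topology.Maps.Basic
import Mathlib.Topology.Maps.Proper.Basic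
import Mathlib.Topology.MetricSpace.Algebra
import Mathlib.Topology.MetricSpace.Antilipschitz
import Mathlib.Topology.MetricSpace.Basic
import Mathlib.Topology.MetricSpace.Bounded
import Mathlib.Topology.MetricSpace.Closeds
import Mathlib.Topology.MetricSpace.Defs
import Mathlib.Topology.MetricSpace.HausdorffDistance
import Mathlib.Topology.MetricSpace.IsometricSMul
import Mathlib.Topology.MetricSpace.Lipschitz
import Mathlib.Topology.MetricSpace.Polish
import Mathlib.Topology.MetricSpace.ProperSpace
import Mathlib.Topology.MetricSpace.ProperSpace.Real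
import Mathlib.Topology.MetricSpace.Pseudo.Constructions
import Mathlib.Topology.MetricSpace.Pseudo.Defs
import Mathlib.Topology.MetricSpace.Pseudo.Lemmas
import Mathlib.Topology.MetricSpace.Pseudo.Pi
import Mathlib.Topology.MetricSpace.Thickening
import Mathlib.Topology.Metrizable.Basic
import Mathlib.Topology.Metrizable.CompletelyMetrizable
import Mathlib.Topology.Metrizable.Uniformity
import Mathlib.Topology.Neighborhoods
import Mathlib.Topology.NhdsWithin
import Mathlib.Topology.OpenPartialHomeomorph.Defs
import Mathlib.Topology.Order
import Mathlib.Topology.Order.Basic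
import Mathlib.Topology.Order.Bornology
import Mathlib.Topology.Order.Compact
import Mathlib.Topology.Order.DenselyOrdered
import Mathlib.Topology.Order.IntermediateValue
import Mathlib.Topology.Order.IsLUB
import Mathlib.Topology.Order.Lattice
import Mathlib.Topology.Order.LocalExtr
import Mathlib.Topology.Order.Monotone
import Mathlib.Topology.Order.OrderClosed
import Mathlib.Topology.Order.Real
import Mathlib.Topology.PartialHomeomorph.Defs
import Mathlib.Topology.Separation.Basic
import Mathlib.Topology.Separation.CompletelyRegular
import Mathlib.Topology.Separation.GDelta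
import Mathlib.Topology.Separation.Hausdorff
import Mathlib.Topology.Separation.Regular
import Mathlib.Topology.Sequences
import Mathlib.Topology.Sets.Compacts
import Mathlib.Topology.Sets.VietorisTopology
import Mathlib.Topology.UniformSpace.Basic
import Mathlib.Topology.UniformSpace.CompareReals
import Mathlib.Topology.UniformSpace.Defs
import Mathlib.Topology.UniformSpace.HeineCantor
import Mathlib.Topology.UniformSpace.Pi
import Mathlib.Topology.UniformSpace.Real
import Mathlib.Topology.UniformSpace.Uniformizable
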